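import Mathlib
import Pool.Agent.H45.XR.Defs

set_option autoImplicit false

open MeasureTheory Set Filter Topology
open scoped Real ENNReal

namespace Pool.Agent.H45.XR

/-- the map `(t, s) ↦ t (i e φ) + s e φ`. -/
noncomputable def fr (φ : ℝ) (q : ℝ × ℝ) : ℂ := (q.1 : ℂ) * (Complex.I * e φ) + (q.2 : ℂ) * e φ

lemma tc_fr (φ : ℝ) (q : ℝ × ℝ) : tc φ (fr φ q) = q.1 := by
  have h := Real.sin_sq_add_cos_sq φ
  simp only [fr, tc, Complex.add_re, Complex.add_im, Complex.mul_re, Complex.mul_im,
    Complex.ofReal_re, Complex.ofReal_im, e_re, e_im, Complex.I_re, Complex.I_im]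
  linear_combination q.1 * h

lemma fr_mp (φ : ℝ) : MeasurePreserving (fr φ) (volume : Measure (ℝ × ℝ)) volume := by
  have h1 : MeasurePreserving (Complex.measurableEquivRealProd.symm) (volume : Measure (ℝ × ℝ))
      volume := Complex.volume_preserving_equiv_real_prod.symm
  have h2 : MeasurePreserving (Prod.swap : ℝ × ℝ → ℝ × ℝ) volume volume :=
    Measure.measurePreserving_swap
  have h3 : MeasurePreserving (rotation (Circle.exp φ)) volume volume :=
    LinearIsometryEquiv.measurePreserving _
  have h4 := h3.comp (h1.comp h2)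
  have : (fr φ) = (rotation (Circle.exp φ)) ∘ (Complex.measurableEquivRealProd.symm) ∘
      Prod.swap := by
    funext q
    have : Complex.measurableEquivRealProd.symm (q.2, q.1) = (q.2 : ℂ) + q.1 * Complex.I := by
      apply Complex.ext <;> simp [Complex.measurableEquivRealProd]
    simp only [Function.comp, Prod.swap, this, rotation_apply, fr, Circle.coe_exp, e]
    ring
  rw [this]
  exact h4

lemma vol_slice {C : Set ℂ} (hc : IsCompact C) (φ : ℝ) {T : Set ℝ} (hT : MeasurableSet T) :
    volume (C ∩ {z | tc φ z ∈ T}) =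
      ∫⁻ t, T.indicator (fun t => volume {s : ℝ | (t : ℂ) * (Complex.I * e φ) + s * e φ ∈ C}) t := by
  have hm : MeasurableSet (C ∩ {z | tc φ z ∈ T}) :=
    hc.measurableSet.inter ((continuous_tc φ).measurable hT)
  rw [← (fr_mp φ).measure_preimage hm.nullMeasurableSet]
  rw [Measure.volume_eq_prod, Measure.prod_apply ((fr_mp φ).measurable hm)]
  refine lintegral_congr fun t => ?_
  by_cases ht : t ∈ T
  · rw [indicator_of_mem ht]
    congr 1
    ext s
    simp only [mem_preimage, mem_inter_iff, mem_ofPred_eq, tc_fr, ht, and_true]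
    rfl
  · rw [indicator_of_notMem ht]
    convert measure_empty (μ := (volume : Measure ℝ))
    ext s
    simp only [mem_preimage, mem_inter_iff, mem_ofPred_eq, tc_fr, ht, and_false]
    simp

lemma sameX_tc {C C' : Set ℂ} (hc : IsCompact C)
    (hc' : IsCompact C') {φ : ℝ} (hX : SameX C C' φ) {T : Set ℝ} (hT : MeasurableSet T) :
    volume (C ∩ {z | tc φ z ∈ T}) = volume (C' ∩ {z | tc φ z ∈ T}) := by
  rw [vol_slice hc φ hT, vol_slice hc' φ hT]
  refine lintegral_congr fun t => ?_
  by_cases ht : t ∈ T
  · rw [indicator_of_mem ht, indicator_of_mem ht]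
    exact hX _
  · rw [indicator_of_notMem ht, indicator_of_notMem ht]

theorem sameX_half {C C' : Set ℂ} (hc : IsCompact C)
    (hc' : IsCompact C') {φ : ℝ} (hX : SameX C C' φ) (t : ℝ) :
    volume (C ∩ {z | tc φ z < t}) = volume (C' ∩ {z | tc φ z < t}) :=
  sameX_tc hc hc' hX (T := Iio t) measurableSet_Iio

theorem sameX_volume {C C' : Set ℂ} (hc : IsCompact C)
    (hc' : IsCompact C') {φ : ℝ} (hX : SameX C C' φ) : volume C = volume C' := by
  have := sameX_tc hc hc' hX (T := univ) MeasurableSet.univ
  simpa using this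

theorem sameX_moment {C C' : Set ℂ} (hc : IsCompact C)
    (hc' : IsCompact C') {φ : ℝ} (hX : SameX C C' φ) :
    ∫ z in C, tc φ z = ∫ z in C', tc φ z := by
  have hm : Measurable (tc φ) := (continuous_tc φ).measurable
  have key : Measure.map (tc φ) (volume.restrict C) = Measure.map (tc φ) (volume.restrict C') := by
    ext T hT
    rw [Measure.map_apply hm hT, Measure.map_apply hm hT, Measure.restrict_apply (hm hT),
      Measure.restrict_apply (hm hT), inter_comm, inter_comm _ C']
    exact sameX_tc hc hc' hX hT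
  have h1 : ∀ D : Set ℂ, ∫ z in D, tc φ z = ∫ x, x ∂(Measure.map (tc φ) (volume.restrict D)) := by
    intro D
    exact (integral_map (f := fun x : ℝ => x) hm.aemeasurable aestronglyMeasurable_id).symm
  rw [h1, h1, key]

/-- `tc φ` as a continuous linear map. -/
noncomputable def tcL (φ : ℝ) : ℂ →L[ℝ] ℝ :=
  Real.cos φ • Complex.imCLM - Real.sin φ • Complex.reCLM

lemma tcL_apply (φ : ℝ) (z : ℂ) : tcL φ z = tc φ z := by
  simp [tcL, tc]

lemma integral_tc {C : Set ℂ} (hc : IsCompact C) (φ : ℝ) :
    ∫ z in C, tc φ z = tc φ (∫ z in C, z) := by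
  rw [← tcL_apply, ← ContinuousLinearMap.integral_comp_comm]
  · simp [tcL_apply]
  · exact continuousOn_id.integrableOn_compact hc

lemma eq_of_tc_tc {φ ψ : ℝ} (hφ : φ < ψ) (hψ : ψ < φ + π) {z w : ℂ} (h1 : tc φ z = tc φ w)
    (h2 : tc ψ z = tc ψ w) : z = w := by
  have hs : 0 < Real.sin (ψ - φ) := Real.sin_pos_of_pos_of_lt_pi (by linarith) (by linarith)
  have h := eq_add_of_tc_eq h1
  rw [h, tc_add, tc_mul, tc_e] at h2
  have h3 : (yc φ z - yc φ w) * Real.sin (φ - ψ) = 0 := by linarith
  have h4 : Real.sin (φ - ψ) ≠ 0 := by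
    intro h0
    rw [show φ - ψ = -(ψ - φ) by ring, Real.sin_neg] at h0
    linarith
  have h5 : yc φ z - yc φ w = 0 := (mul_eq_zero.1 h3).resolve_right h4
  rw [h, h5]
  simp

theorem sameX_integral {C C' : Set ℂ} (hc : IsCompact C)
    (hc' : IsCompact C') {φ ψ : ℝ} (hφ : φ < ψ) (hψ : ψ < φ + π) (hX : SameX C C' φ)
    (hX' : SameX C C' ψ) : ∫ z in C, z = ∫ z in C', z := by
  apply eq_of_tc_tc hφ hψ
  · rw [← integral_tc hc, ← integral_tc hc', sameX_moment hc hc' hX]
  · rw [← integral_tc hc, ← integral_tc hc', sameX_moment hc hc' hX']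

/-- the centroid of a convex body is an interior point. -/
theorem centroid_mem {C : Set ℂ} (hC : Convex ℝ C) (hc : IsCompact C) (h : (interior C).Nonempty) :
    ((volume C).toReal)⁻¹ • (∫ z in C, z) ∈ interior C := by
  obtain ⟨z, hz⟩ := h
  obtain ⟨r, hr, hrs⟩ := Metric.isOpen_iff.1 isOpen_interior z hz
  have hfin : volume C < ∞ := hc.measure_lt_top
  have : IsFiniteMeasure (volume.restrict C) := ⟨by simpa using hfin⟩
  have hsub : Metric.closedBall z (r / 2) ⊆ interior C :=
    (Metric.closedBall_subset_ball (by linarith)).trans hrs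
  have hcv : IntegrableOn (fun z : ℂ => z) C volume := continuousOn_id.integrableOn_compact hc
  have h0 : (volume.restrict C) (Metric.closedBall z (r / 2)) ≠ 0 := by
    rw [Measure.restrict_apply Metric.isClosed_closedBall.measurableSet,
      inter_eq_left.2 (hsub.trans interior_subset)]
    exact (Metric.measure_closedBall_pos volume z (by linarith)).ne'
  have hav : ⨍ x in Metric.closedBall z (r / 2), x ∂(volume.restrict C) ∈ interior C := by
    apply hsub
    apply (convex_closedBall z (r / 2)).set_average_mem Metric.isClosed_closedBall h0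
      (measure_ne_top _ _)
    · exact ae_restrict_mem Metric.isClosed_closedBall.measurableSet
    · exact hcv.integrableOn
  have := hC.average_mem_interior_of_set (μ := volume.restrict C) (f := fun z => z) h0
    (ae_restrict_mem hc.measurableSet) hcv hav
  rw [setAverage_eq] at this
  simpa [measureReal_def] using this

end Pool.Agent.H45.XR
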