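import Mathlib
import Pool.Agent.H45.XR.Defs
import Pool.Agent.H91.XR.B1
import Pool.Agent.H7.XR.A1

set_option autoImplicit false

open MeasureTheory Set Filter Topology
open scoped Real ENNReal

namespace Pool.Agent.H45.XR

/-- polar coordinates based at the angle `a`. -/
lemma lintegral_polar (a : ℝ) {f : ℂ → ℝ≥0∞} (hf : Measurable f) :
    ∫⁻ z, f z = ∫⁻ s in Ioo a (a + 2 * π), ∫⁻ r in Ioi (0 : ℝ),
      ENNReal.ofReal r * f (r * e s) := by
  have hmp : MeasurePreserving (rotation (Circle.exp (a + π))) volume volume :=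
    LinearIsometryEquiv.measurePreserving _
  have h1 : ∫⁻ z, f z = ∫⁻ z, f (e (a + π) * z) := by
    rw [← hmp.lintegral_comp hf]
    refine lintegral_congr fun z => ?_
    rw [rotation_apply, Circle.coe_exp]
    rfl
  have hm2 : Measurable fun p : ℝ × ℝ => ENNReal.ofReal p.1 * f (p.1 * e (p.2 + (a + π))) := by
    refine (ENNReal.measurable_ofReal.comp measurable_fst).mul (hf.comp ?_)
    exact (Complex.measurable_ofReal.comp measurable_fst).mul
      (continuous_e.measurable.comp (measurable_snd.add_const _))
  have hm3 : Measurable fun p : ℝ × ℝ => ENNReal.ofReal p.1 * f (p.1 * e p.2) := by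
    refine (ENNReal.measurable_ofReal.comp measurable_fst).mul (hf.comp ?_)
    exact (Complex.measurable_ofReal.comp measurable_fst).mul
      (continuous_e.measurable.comp measurable_snd)
  rw [h1, ← Complex.lintegral_comp_polarCoord_symm, polarCoord_target, Measure.volume_eq_prod,
    ← Measure.prod_restrict]
  have h2 : ∀ p : ℝ × ℝ, ENNReal.ofReal p.1 • f (e (a + π) * Complex.polarCoord.symm p) =
      ENNReal.ofReal p.1 * f (p.1 * e (p.2 + (a + π))) := by
    intro p
    rw [smul_eq_mul, Complex.polarCoord_symm_apply, e_add p.2]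
    congr 2
    rw [show ((Real.cos p.2 : ℂ) + Real.sin p.2 * Complex.I) = e p.2 by
      apply Complex.ext <;> simp [Complex.cos_ofReal_re, Complex.sin_ofReal_re]]
    ring
  simp_rw [h2]
  rw [lintegral_prod_symm _ hm2.aemeasurable]
  have h3 : Measurable fun s : ℝ => ∫⁻ r in Ioi (0 : ℝ), ENNReal.ofReal r * f (r * e s) :=
    hm3.lintegral_prod_left'
  have h4 := (measurePreserving_add_right (volume : Measure ℝ) (a + π)).setLIntegral_comp_preimage
    (s := Ioo a (a + 2 * π)) measurableSet_Ioo h3
  rw [← h4]
  congr 2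
  ext s
  simp only [mem_preimage, mem_Ioo]
  constructor <;> rintro ⟨h5, h6⟩ <;> constructor <;> linarith

lemma lintegral_ray {ρ : ℝ} (hρ : 0 ≤ ρ) :
    ∫⁻ r in Ioc (0 : ℝ) ρ, ENNReal.ofReal r = ENNReal.ofReal (ρ ^ 2 / 2) := by
  have hi : IntegrableOn (fun r : ℝ => r) (Ioc 0 ρ) volume :=
    (continuousOn_id.integrableOn_compact (isCompact_Icc (a := 0) (b := ρ))).mono_set
      Ioc_subset_Icc_self
  rw [← ofReal_integral_eq_lintegral_ofReal hi]
  · rw [← intervalIntegral.integral_of_le hρ, integral_id]
    simp
  · filter_upwards [ae_restrict_mem measurableSet_Ioc] with r hr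
    exact hr.1.le

lemma cont_rad {C : Set ℂ} (hC : Body C) : Continuous (rad C) := by
  obtain ⟨L, hL⟩ := rad_lipschitz hC
  exact hL.continuous

/-- area of the part of `C` in a sector. -/
lemma vol_sector {C : Set ℂ} (hC : Body C) {a b : ℝ} (hab : a ≤ b) (hb : b ≤ a + 2 * π)
    {S : Set ℂ} (hS : MeasurableSet S)
    (hSm : ∀ s ∈ Ioo a (a + 2 * π), s ≠ b → ∀ r : ℝ, 0 < r → ((r : ℂ) * e s ∈ S ↔ s < b)) :
    volume (C ∩ S) = ENNReal.ofReal (∫ s in a..b, rad C s ^ 2 / 2) := by
  have hmC : MeasurableSet (C ∩ S) := hC.cpt.measurableSet.inter hS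
  have hcont : Continuous fun s => rad C s ^ 2 / 2 := by
    have := cont_rad hC
    fun_prop
  rw [← lintegral_indicator_one hmC, lintegral_polar a (measurable_one.indicator hmC)]
  have h1 : ∀ s ∈ Ioo a (a + 2 * π), s ≠ b → ∫⁻ r in Ioi (0 : ℝ),
      ENNReal.ofReal r * (C ∩ S).indicator 1 (r * e s) =
      (Iio b).indicator (fun s => ENNReal.ofReal (rad C s ^ 2 / 2)) s := by
    intro s hs hsb
    by_cases hlt : s < b
    · rw [indicator_of_mem (show s ∈ Iio b from hlt), ← lintegral_ray (rad_pos hC s).le,
        ← lintegral_indicator measurableSet_Ioi, ← lintegral_indicator measurableSet_Ioc]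
      refine lintegral_congr fun r => ?_
      by_cases hr : 0 < r
      · rw [indicator_of_mem (show r ∈ Ioi (0 : ℝ) from hr)]
        by_cases hr2 : r ≤ rad C s
        · rw [indicator_of_mem (show r ∈ Ioc (0 : ℝ) (rad C s) from ⟨hr, hr2⟩), indicator_of_mem]
          · simp
          · exact ⟨(mem_iff_le_rad hC s hr.le).2 hr2, (hSm s hs hsb r hr).2 hlt⟩
        · rw [indicator_of_notMem (show r ∉ Ioc (0 : ℝ) (rad C s) from fun h => hr2 h.2),
            indicator_of_notMem]
          · simp
          · exact fun h => hr2 ((mem_iff_le_rad hC s hr.le).1 h.1)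
      · rw [indicator_of_notMem (show r ∉ Ioi (0 : ℝ) from hr),
          indicator_of_notMem (show r ∉ Ioc (0 : ℝ) (rad C s) from fun h => hr h.1)]
    · rw [indicator_of_notMem (show s ∉ Iio b from hlt)]
      rw [setLIntegral_congr_fun (g := fun _ => 0) measurableSet_Ioi]
      · simp
      · intro r hr
        dsimp only
        rw [indicator_of_notMem]
        · simp
        · exact fun h => hlt ((hSm s hs hsb r hr).1 h.2)
  have h2 : ∫⁻ s in Ioo a (a + 2 * π), ∫⁻ r in Ioi (0 : ℝ),
      ENNReal.ofReal r * (C ∩ S).indicator 1 (r * e s) =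
      ∫⁻ s in Ioo a (a + 2 * π), (Iio b).indicator
        (fun s => ENNReal.ofReal (rad C s ^ 2 / 2)) s := by
    apply lintegral_congr_ae
    have h3 : ∀ᵐ s ∂(volume.restrict (Ioo a (a + 2 * π))), s ≠ b := by
      apply ae_restrict_of_ae
      exact Measure.ae_ne volume b
    filter_upwards [h3, ae_restrict_mem measurableSet_Ioo] with s hs1 hs2
    exact h1 s hs2 hs1
  rw [h2, lintegral_indicator measurableSet_Iio, Measure.restrict_restrict measurableSet_Iio]
  have h4 : Iio b ∩ Ioo a (a + 2 * π) = Ioo a b := by
    ext s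
    simp only [mem_inter_iff, mem_Iio, mem_Ioo]
    constructor
    · rintro ⟨h5, h6, h7⟩; exact ⟨h6, h5⟩
    · rintro ⟨h5, h6⟩; exact ⟨h6, h5, by linarith⟩
  rw [h4, intervalIntegral.integral_of_le hab, integral_Ioc_eq_integral_Ioo,
    ofReal_integral_eq_lintegral_ofReal]
  · exact (hcont.continuousOn.integrableOn_compact (isCompact_Icc (a := a) (b := b))).mono_set
      Ioo_subset_Icc_self
  · exact Eventually.of_forall fun s => by positivity

lemma Psi_sub {C C' : Set ℂ} (hC : Body C) (hC' : Body C') (a b : ℝ) :
    Psi C C' b - Psi C C' a =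
      2 * (∫ s in a..b, rad C' s ^ 2 / 2) - 2 * (∫ s in a..b, rad C s ^ 2 / 2) := by
  have h1 := cont_rad hC
  have h2 := cont_rad hC'
  unfold Psi
  rw [intervalIntegral.integral_interval_sub_left]
  · rw [intervalIntegral.integral_sub]
    · rw [intervalIntegral.integral_div, intervalIntegral.integral_div]
      ring
    · exact (Continuous.intervalIntegrable (by fun_prop) _ _)
    · exact (Continuous.intervalIntegrable (by fun_prop) _ _)
  · exact (Continuous.intervalIntegrable (by fun_prop) _ _)
  · exact (Continuous.intervalIntegrable (by fun_prop) _ _)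

lemma Psi_eq_of_vol {C C' : Set ℂ} (hC : Body C) (hC' : Body C') {a b : ℝ} (hab : a ≤ b)
    (hb : b ≤ a + 2 * π) {S : Set ℂ} (hS : MeasurableSet S)
    (hSm : ∀ s ∈ Ioo a (a + 2 * π), s ≠ b → ∀ r : ℝ, 0 < r → ((r : ℂ) * e s ∈ S ↔ s < b))
    (hV : volume (C ∩ S) = volume (C' ∩ S)) : Psi C C' a = Psi C C' b := by
  rw [vol_sector hC hab hb hS hSm, vol_sector hC' hab hb hS hSm,
    ENNReal.ofReal_eq_ofReal_iff] at hV
  · have := Psi_sub hC hC' a b
    rw [hV] at this
    linarith
  · exact intervalIntegral.integral_nonneg hab fun s _ => by positivity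
  · exact intervalIntegral.integral_nonneg hab fun s _ => by positivity

theorem Psi_periodic {C C' : Set ℂ} (hC : Body C) (hC' : Body C')
    (hV : volume C = volume C') (θ : ℝ) : Psi C C' (θ + 2 * π) = Psi C C' θ := by
  symm
  apply Psi_eq_of_vol hC hC' (by linarith [Real.pi_pos]) le_rfl MeasurableSet.univ
  · intro s hs _ r _
    simp [hs.2]
  · simpa using hV

/-- the open convex sector between the angles `a < b ≤ a + π`. -/
def Sec (a b : ℝ) : Set ℂ := {z | 0 < tc a z ∧ tc b z < 0}

lemma meas_Sec (a b : ℝ) : MeasurableSet (Sec a b) := by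
  have h1 := (continuous_tc a).measurable
  have h2 := (continuous_tc b).measurable
  exact (measurableSet_lt measurable_const h1).inter (measurableSet_lt h2 measurable_const)

lemma mem_Sec {a b s r : ℝ} (hab : a < b) (hb : b ≤ a + π) (hs : s ∈ Ioo a (a + 2 * π))
    (hsb : s ≠ b) (hr : 0 < r) : (r : ℂ) * e s ∈ Sec a b ↔ s < b := by
  have hpi := Real.pi_pos
  simp only [Sec, mem_ofPred_eq, tc_mul, tc_e]
  constructor
  · rintro ⟨h1, h2⟩
    by_contra h3
    have h4 : b < s := lt_of_le_of_ne (not_lt.1 h3) (Ne.symm hsb)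
    have h5 : 0 < Real.sin (s - a) := by
      by_contra h; exact absurd h1 (not_lt.2 (mul_nonpos_of_nonneg_of_nonpos hr.le (not_lt.1 h)))
    have h6 : s - a < π := by
      by_contra h
      have : Real.sin (s - a) ≤ 0 := by
        have h7 : Real.sin (s - a - π) = - Real.sin (s - a) := Real.sin_sub_pi _
        have h8 : 0 ≤ Real.sin (s - a - π) :=
          Real.sin_nonneg_of_nonneg_of_le_pi (by linarith) (by linarith [hs.2])
        linarith
      linarith
    have h7 : 0 < Real.sin (s - b) := Real.sin_pos_of_pos_of_lt_pi (by linarith) (by linarith)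
    have := mul_pos hr h7
    linarith
  · intro h
    have h1 : 0 < Real.sin (s - a) :=
      Real.sin_pos_of_pos_of_lt_pi (by linarith [hs.1]) (by linarith)
    have h2 : Real.sin (s - b) < 0 :=
      Real.sin_neg_of_neg_of_neg_pi_lt (by linarith) (by linarith [hs.1])
    exact ⟨mul_pos hr h1, mul_neg_of_pos_of_neg hr h2⟩

lemma rad_re (C : Set ℂ) (θ : ℝ) : (pt C θ) = (rad C θ : ℂ) * e θ := rfl

/-- in the situation of `chord_core`, the direction of the chord. -/
lemma chord_eqs {C : Set ℂ} {φ a b s : ℝ} (h : pt C b = pt C a + s * e φ) :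
    rad C b * Real.sin (b - a) = s * Real.sin (φ - a) ∧
    rad C a * Real.sin (b - a) = s * Real.sin (φ - b) ∧
    tc φ (pt C a) * s = - (rad C a * rad C b * Real.sin (b - a)) := by
  have h1 := congrArg (tc a) h
  have h2 := congrArg (tc b) h
  have h3 := congrArg (yc a) h
  rw [tc_add, tc_pt, tc_pt, tc_mul, tc_e] at h1 h2
  simp only [sub_self, Real.sin_zero, mul_zero, zero_add] at h1 h2
  rw [show a - b = -(b - a) by ring, Real.sin_neg] at h2
  refine ⟨h1, by linarith, ?_⟩
  rw [tc_pt, show a - φ = -(φ - a) by ring, Real.sin_neg]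
  linear_combination (rad C a) * h1

/-- `w` interior, `B ∈ C`, `A` between: `A` is interior -/
lemma between_interior {C : Set ℂ} (hC : Convex ℝ C) {w B A u : ℂ} {x y : ℝ} (hw : w ∈ interior C)
    (hB : B ∈ C) (hy : 0 ≤ y) (hx : 0 < x) (h1 : w = A - y * u) (h2 : B = A + x * u) :
    A ∈ interior C := by
  have h : A = (x / (x + y)) • w + (y / (x + y)) • B := by
    have hxy : ((x : ℂ) + y) ≠ 0 := by
      have : x + y ≠ 0 := by positivity
      exact_mod_cast this
    rw [h1, h2, Complex.real_smul, Complex.real_smul]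
    push_cast
    field_simp
    ring
  rw [h]
  exact hC.combo_interior_self_mem_interior hw hB (by positivity) (by positivity)
    (by field_simp)

/-- the part of `C` beyond a chord. -/
lemma chord_sector {C : Set ℂ} (hC : Body C) {φ a b s : ℝ} (hs : 0 < s) (hab : a < b)
    (hb : b ≤ a + π) (h : pt C b = pt C a + s * e φ) :
    C ∩ Sec a b = (C ∩ {z | tc φ z < tc φ (pt C a)}) ∪
      (Sec a b ∩ {z | tc φ (pt C a) ≤ tc φ z}) := by
  obtain ⟨e1, e2, e3⟩ := chord_eqs h
  have ha0 := rad_pos hC a
  have hb0 := rad_pos hC b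
  have hpi := Real.pi_pos
  have htc : tc φ (pt C b) = tc φ (pt C a) := by
    rw [h, tc_add, tc_mul, tc_e_self]; ring
  set t := tc φ (pt C a) with ht
  rcases hb.lt_or_eq with hlt | heq
  · have hsin : 0 < Real.sin (b - a) :=
      Real.sin_pos_of_pos_of_lt_pi (by linarith) (by linarith)
    have hs1 : 0 < Real.sin (φ - a) := by
      have : 0 < s * Real.sin (φ - a) := by rw [← e1]; positivity
      exact (pos_iff_pos_of_mul_pos this).1 hs
    have hs2 : 0 < Real.sin (φ - b) := by
      have : 0 < s * Real.sin (φ - b) := by rw [← e2]; positivity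
      exact (pos_iff_pos_of_mul_pos this).1 hs
    have ht0 : t < 0 := by
      have : t * s < 0 := by rw [e3]; have := mul_pos (mul_pos ha0 hb0) hsin; linarith
      by_contra h0
      have := mul_nonneg (not_lt.1 h0) hs.le
      linarith
    have hsub1 : C ∩ {z | tc φ z < t} ⊆ Sec a b := by
      rintro z ⟨hz, hzt⟩
      simp only [mem_ofPred_eq] at hzt
      have hzt0 : tc φ z < 0 := by linarith
      have hl0 : 0 < t / tc φ z := div_pos_of_neg_of_neg ht0 hzt0
      have hl1 : t / tc φ z < 1 := by
        rw [div_lt_one_of_neg hzt0]; exact hzt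
      set l := t / tc φ z with hl
      have hlt : l * tc φ z = t := by rw [hl]; exact div_mul_cancel₀ t hzt0.ne
      have hw : (l : ℂ) * z ∈ interior C := by
        have := hC.conv.combo_interior_self_mem_interior (x := 0) (y := z) hC.zero hz
          (a := 1 - l) (b := l) (by linarith) hl0.le (by ring)
        simpa using this
      have htw : tc φ ((l : ℂ) * z) = t := by rw [tc_mul, hlt]
      constructor
      · by_contra hneg
        have hneg := not_lt.1 hneg
        have hwa := eq_add_of_tc_eq (φ := φ) (z := (l : ℂ) * z) (w := pt C a) (by rw [htw])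
        set y := yc φ ((l : ℂ) * z) - yc φ (pt C a) with hy
        have h5 : tc a ((l : ℂ) * z) = y * Real.sin (φ - a) := by
          rw [hwa, tc_add, tc_mul, tc_e, tc_pt]; simp
        rw [tc_mul] at h5
        have h6 : y ≤ 0 := by
          by_contra h7
          have h8 := mul_pos (not_le.1 h7) hs1
          have h9 := mul_nonpos_of_nonneg_of_nonpos hl0.le hneg
          linarith
        apply pt_notMem_interior hC a
        exact between_interior hC.conv (u := e φ) (y := -y) (x := s) hw (pt_mem hC b)
          (by linarith) hs (by rw [hwa]; push_cast; ring) h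
      · by_contra hneg
        have hneg := not_lt.1 hneg
        have hwb := eq_add_of_tc_eq (φ := φ) (z := (l : ℂ) * z) (w := pt C b) (by rw [htw, htc])
        set y := yc φ ((l : ℂ) * z) - yc φ (pt C b) with hy
        have h5 : tc b ((l : ℂ) * z) = y * Real.sin (φ - b) := by
          rw [hwb, tc_add, tc_mul, tc_e, tc_pt]; simp
        rw [tc_mul] at h5
        have h6 : 0 ≤ y := by
          by_contra h7
          have h8 := mul_neg_of_neg_of_pos (not_le.1 h7) hs2
          have h9 := mul_nonneg hl0.le hneg
          linarith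
        apply pt_notMem_interior hC b
        exact between_interior hC.conv (u := -e φ) (y := y) (x := s) hw (pt_mem hC a)
          h6 hs (by rw [hwb]; ring) (by rw [h]; ring)
    have hsub2 : Sec a b ∩ {z | t ≤ tc φ z} ⊆ C := by
      rintro z ⟨⟨hz1, hz2⟩, hz3⟩
      simp only [mem_ofPred_eq] at hz3
      set D := rad C a * rad C b * Real.sin (b - a) with hD
      have hD0 : 0 < D := by positivity
      set α := -(rad C b * tc b z) / D with hα
      set β := (rad C a * tc a z) / D with hβ
      have hα0 : 0 < α := by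
        apply div_pos _ hD0
        have := mul_neg_of_pos_of_neg hb0 hz2
        linarith
      have hβ0 : 0 < β := div_pos (mul_pos ha0 hz1) hD0
      have hz : z = (α : ℂ) * pt C a + (β : ℂ) * pt C b := by
        have hne : D ≠ 0 := hD0.ne'
        have hsne : Real.sin (b - a) ≠ 0 := hsin.ne'
        have h7 : α * rad C a = - (tc b z) / Real.sin (b - a) := by
          rw [hα, hD]; field_simp
        have h8 : β * rad C b = (tc a z) / Real.sin (b - a) := by
          rw [hβ, hD]; field_simp
        have h9 : (α : ℂ) * pt C a + (β : ℂ) * pt C b = ((α * rad C a : ℝ) : ℂ) * e a +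
            ((β * rad C b : ℝ) : ℂ) * e b := by
          simp only [pt]; push_cast; ring
        rw [h9, h7, h8]
        have hsab := Real.sin_sub b a
        have ca := Real.sin_sq_add_cos_sq a
        have cb := Real.sin_sq_add_cos_sq b
        apply Complex.ext
        · simp only [Complex.add_re, Complex.mul_re, Complex.ofReal_re, Complex.ofReal_im, e_re,
            e_im, zero_mul, sub_zero, tc]
          field_simp
          rw [hsab]
          ring
        · simp only [Complex.add_im, Complex.mul_im, Complex.ofReal_re, Complex.ofReal_im, e_re,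
            e_im, zero_mul, add_zero, tc]
          field_simp
          rw [hsab]
          ring
      have hsum : α + β ≤ 1 := by
        have h7 : tc φ z = (α + β) * t := by
          rw [hz, tc_add, tc_mul, tc_mul, htc]; ring
        rw [h7] at hz3
        by_contra h8
        have h9 := mul_lt_mul_of_neg_right (not_le.1 h8) ht0
        linarith
      have h0 : (0 : ℂ) ∈ C := interior_subset hC.zero
      have := hC.conv.sum_mem (t := (Finset.univ : Finset (Fin 3))) (w := ![1 - α - β, α, β])
        (z := ![0, pt C a, pt C b]) ?_ ?_ ?_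
      · rw [Fin.sum_univ_three] at this
        simp only [Matrix.cons_val_zero, Matrix.cons_val_one, Matrix.cons_val_two, smul_zero,
          zero_add, Complex.real_smul] at this
        rw [hz]
        exact this
      · intro i _
        fin_cases i
        · simp; linarith
        · simpa using hα0.le
        · simpa using hβ0.le
      · rw [Fin.sum_univ_three]
        simp
        ring
      · intro i _
        fin_cases i
        · simpa using h0
        · simpa using pt_mem hC a
        · simpa using pt_mem hC b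
    ext z
    simp only [mem_inter_iff, mem_union, mem_ofPred_eq]
    constructor
    · rintro ⟨h5, h6⟩
      rcases lt_or_ge (tc φ z) t with h7 | h7
      · exact Or.inl ⟨h5, h7⟩
      · exact Or.inr ⟨h6, h7⟩
    · rintro (⟨h5, h6⟩ | ⟨h5, h6⟩)
      · exact ⟨h5, hsub1 ⟨h5, h6⟩⟩
      · exact ⟨hsub2 ⟨h5, h6⟩, h5⟩
  · have hsin : Real.sin (b - a) = 0 := by rw [heq]; simp
    have ht0 : t = 0 := by
      rw [hsin] at e3
      have : t * s = 0 := by rw [e3]; ring
      exact (mul_eq_zero.1 this).resolve_right hs.ne'
    -- `e φ = - e a`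
    have heb : e b = - e a := by rw [heq, e_add_pi]
    have hφ : (s : ℂ) * e φ = -((rad C a + rad C b : ℝ) : ℂ) * e a := by
      have : (s : ℂ) * e φ = pt C b - pt C a := by rw [h]; ring
      rw [this, pt, pt, heb]; push_cast; ring
    have hsr : s = rad C a + rad C b := by
      have h5 := congrArg norm hφ
      rw [norm_mul, norm_mul, norm_e, norm_e, norm_neg, Complex.norm_real, Complex.norm_real,
        Real.norm_of_nonneg hs.le, Real.norm_of_nonneg (by positivity)] at h5
      linarith
    have heφ : e φ = - e a := by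
      rw [← hsr] at hφ
      have hsC : (s : ℂ) ≠ 0 := by exact_mod_cast hs.ne'
      have : (s : ℂ) * e φ = (s : ℂ) * (- e a) := by rw [hφ]; ring
      exact mul_left_cancel₀ hsC this
    have htφ : ∀ z, tc φ z = - tc a z := by
      intro z
      have h5 : Real.cos φ = - Real.cos a := by
        have := congrArg Complex.re heφ; simpa using this
      have h6 : Real.sin φ = - Real.sin a := by
        have := congrArg Complex.im heφ; simpa using this
      rw [tc, tc, h5, h6]; ring
    have htb : ∀ z, tc b z = - tc a z := by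
      intro z
      have h5 : Real.cos b = - Real.cos a := by
        have := congrArg Complex.re heb; simpa using this
      have h6 : Real.sin b = - Real.sin a := by
        have := congrArg Complex.im heb; simpa using this
      rw [tc, tc, h5, h6]; ring
    ext z
    simp only [mem_inter_iff, mem_union, mem_ofPred_eq, Sec, ht0, htφ, htb]
    constructor
    · rintro ⟨h5, h6, h7⟩; exact Or.inl ⟨h5, by linarith⟩
    · rintro (⟨h5, h6⟩ | ⟨⟨h5, h6⟩, h7⟩)
      · exact ⟨h5, by linarith, by linarith⟩
      · exfalso; linarith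

lemma chord_core {C C' : Set ℂ} (hC : Body C) (hC' : Body C') {φ a b s : ℝ}
    (hX : ∀ t : ℝ, volume (C ∩ {z | tc φ z < t}) = volume (C' ∩ {z | tc φ z < t}))
    (ha : a ∈ EE C C') (hb : b ∈ EE C C') (hs : 0 < s) (hab : a < b)
    (hb' : b ≤ a + π) (h : pt C b = pt C a + s * e φ) : Psi C C' a = Psi C C' b := by
  have hpa : pt C' a = pt C a := by rw [pt, pt, show rad C a = rad C' a from ha]
  have hpb : pt C' b = pt C b := by rw [pt, pt, show rad C b = rad C' b from hb]
  have hpi := Real.pi_pos
  apply Psi_eq_of_vol hC hC' hab.le (by linarith) (meas_Sec a b)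
    (fun s hs hsb r hr => mem_Sec hab hb' hs hsb hr)
  have h' : pt C' b = pt C' a + s * e φ := by rw [hpa, hpb, h]
  rw [chord_sector hC hs hab hb' h, chord_sector hC' hs hab hb' h', hpa]
  have hdis : ∀ D : Set ℂ, Disjoint (D ∩ {z | tc φ z < tc φ (pt C a)})
      (Sec a b ∩ {z | tc φ (pt C a) ≤ tc φ z}) := by
    intro D
    rw [Set.disjoint_left]
    rintro z ⟨_, h5⟩ ⟨_, h6⟩
    simp only [mem_ofPred_eq] at h5 h6
    linarith
  have hmT : MeasurableSet (Sec a b ∩ {z | tc φ (pt C a) ≤ tc φ z}) :=
    (meas_Sec a b).inter (measurableSet_le measurable_const (continuous_tc φ).measurable)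
  rw [measure_union (hdis C) hmT, measure_union (hdis C') hmT, hX]

/-- common chord `[pt C a, pt C b]` in direction `e φ`. -/
theorem Psi_chord {C C' : Set ℂ} (hC : Body C) (hC' : Body C') {φ : ℝ} (hX : SameX C C' φ)
    {a b : ℝ} (ha : a ∈ EE C C') (hb : b ∈ EE C C') (h1 : a < b) (h2 : b < a + 2 * π)
    (hab : tc φ (pt C a) = tc φ (pt C b)) : Psi C C' a = Psi C C' b := by
  have hpi := Real.pi_pos
  -- the core for both orientations
  have core : ∀ a b : ℝ, a ∈ EE C C' → b ∈ EE C C' → a < b → b ≤ a + π →
      tc φ (pt C a) = tc φ (pt C b) → Psi C C' a = Psi C C' b := by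
    intro a b ha hb h1 h2 hab
    have hd := eq_add_of_tc_eq hab.symm
    set y := yc φ (pt C b) - yc φ (pt C a) with hy
    rcases lt_trichotomy y 0 with hy0 | hy0 | hy0
    · have hX' : ∀ t : ℝ, volume (C ∩ {z | tc (φ + π) z < t}) =
          volume (C' ∩ {z | tc (φ + π) z < t}) := by
        intro t
        have h5 : {z : ℂ | tc (φ + π) z < t} = {z | tc φ z ∈ Ioi (-t)} := by
          ext z
          simp only [mem_ofPred_eq, mem_Ioi, tc, Real.cos_add_pi, Real.sin_add_pi]
          constructor <;> intro h <;> linarith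
        rw [h5]
        exact sameX_tc hC.cpt hC'.cpt hX measurableSet_Ioi
      exact chord_core hC hC' hX' ha hb (s := -y) (by linarith) h1 h2
        (by rw [hd, e_add_pi]; push_cast; ring)
    · exfalso
      rw [hy0] at hd
      simp only [Complex.ofReal_zero, zero_mul, add_zero] at hd
      have h5 := congrArg (tc a) hd
      rw [tc_pt, tc_pt, sub_self, Real.sin_zero, mul_zero] at h5
      have h6 : Real.sin (b - a) = 0 := (mul_eq_zero.1 h5).resolve_left (rad_pos hC b).ne'
      rcases h2.lt_or_eq with h7 | h7
      · have := Real.sin_pos_of_pos_of_lt_pi (x := b - a) (by linarith) (by linarith)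
        linarith
      · have h8 := congrArg (yc a) hd
        rw [yc_pt, yc_pt, h7] at h8
        simp only [add_sub_cancel_left, Real.cos_pi, sub_self, Real.cos_zero] at h8
        have h9 := rad_pos hC (a + π)
        have h10 := rad_pos hC a
        linarith
    · exact chord_core hC hC' (sameX_half hC.cpt hC'.cpt hX) ha hb (s := y) hy0 h1 h2 hd
  rcases le_total b (a + π) with h3 | h3
  · exact core a b ha hb h1 h3 hab
  · have hV := sameX_volume hC.cpt hC'.cpt hX
    have ha' : a + 2 * π ∈ EE C C' := by
      show rad C (a + 2 * π) = rad C' (a + 2 * π)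
      rw [rad_periodic, rad_periodic]; exact ha
    have := core b (a + 2 * π) hb ha' h2 (by linarith) (by rw [pt_periodic]; exact hab.symm)
    rw [this, Psi_periodic hC hC' hV]

end Pool.Agent.H45.XR
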